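import Mathlib
import Pool.Agent.H2.SL3

namespace Pool.Agent.Results.MP_aabed8_pr.Fail

open MeasureTheory Pool.Agent.H2.SL3

theorem result : ∃ (Y : Type) (_ : NormedAddCommGroup Y) (_ : InnerProductSpace ℝ Y),
    CompleteSpace Y ∧ BConvex Y ∧
    ∃ (Ω : Type) (_ : MeasurableSpace Ω) (μ : Measure Ω) (_ : IsProbabilityMeasure μ)
      (Ψ : ℕ → Ω → Set Y) (U : Set Y), Seq μ Ψ U ∧
      ∀ ω N, 1 ≤ N → ENNReal.ofReal (1 / 8) ≤ Metric.hausdorffEDist (avg Ψ N ω) U := by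
  obtain ⟨Ω, m, μ, p, Ψ, U, _, h⟩ := main
  exact ⟨Pool.Agent.H2.SL2.X, inferInstance, inferInstance, inferInstance, bconvex, Ω, m, μ, p, Ψ, U, h⟩

end Pool.Agent.Results.MP_aabed8_pr.Fail
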